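import Pool.Agent.W896.MO.OVOut

/-!
# Orthogonal vectors with outputs: quadratic time for machines with small memory and a stack

The model: families of (non-uniform) programs, one of which is chosen at random; a program has `s`
nodes (a memory of `log s` bits) and a stack (pushdown store) of unlimited height; it reads the bits
of the input in any order, adaptively and repeatedly, and writes the outputs in any order; all other
steps are free. So all word-RAM programs (also randomised and non-uniform ones) whose memory, apart
from a stack, consists of `n ^ o(1)` bits are contained in the model.

The task: for two lists of `N` distinct vectors of dimension `d`, find out for each vector of the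
second list whether there is a vector in the first list which is orthogonal to it. Checking all
pairs takes `N ^ 2 d` reads with a memory of `O (log N)` bits. We show that a probability
`2 ^ (- π)` of being right on every input requires a number `T` of reads and writes with
`T (log s + π + 1) ≥ c N ^ 2`, already for `d = 3 log N + 1`. So with a memory of `N ^ o(1)` bits and a
stack the time is `N ^ (2 - o(1))`: for such programs, and for this version of the problem, the
hypothesis of the page is a theorem.

Proof. The vectors encode numbers such that a vector of the first list is orthogonal to a vector of
the second one if and only if the numbers are equal. It remains to find the range of a function from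
`h` elements to `2 h` elements. A computation is cut into pieces of `h / 32` reads and writes each,
in spite of the stack (`Pool.Agent.W896.MO.pieces`, `union_bound`); such a piece finds `k` numbers
outside the range of a random function only with probability `2 ^ (- c k)`.
-/

set_option autoImplicit false

namespace Pool.Agent.Results.MP_0f984e_lc.AllVectorsStack

open Pool.Agent.W896.MO

/-- The bit `(false, i, l)` is the coordinate `l` of the vector `i` of the first list, the bit
`(true, i, l)` that of the second list; `Valid x` says that the vectors of each list are different,
and `ovOut x j` says whether some vector of the first list is orthogonal to the vector `j` of the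
second one. Let `d ≥ 3 ⌈log₂ N⌉ + 1`, and let `P r` (`r` in a finite nonempty set) be programs with a
stack and at most `s` nodes each, such that for every input at least a `2 ^ (- π)` fraction of them
computes all outputs with at most `T` reads and writes. Then
`N ^ 2 ≤ 2 ^ 22 T (log₂ s + π + 1)`. -/
theorem result (N d T π s : ℕ) (hd : 3 * Nat.clog 2 N + 1 ≤ d) (R : Type) [Fintype R] [Nonempty R]
    (P : R → Prog (Bool × Fin N × Fin d) (Fin N) Bool)
    (hs : ∀ r, Fintype.card (P r).State ≤ s)
    (hc : ∀ x : Bool × Fin N × Fin d → Bool, Pool.Agent.W896.FD.OV.Valid x →
      Nat.card R ≤ 2 ^ π * Nat.card {r // (P r).Computes x (ovOut x) T}) :
    (N : ℝ) ^ 2 ≤ 2 ^ 22 * T * (Real.logb 2 s + π + 1) :=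
  ov_out N d T π s hd R P hs hc

end Pool.Agent.Results.MP_0f984e_lc.AllVectorsStack
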