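import Pool.Agent.W896.FD.OV

/-!
# Orthogonal vectors needs many reads or much memory

We consider Boolean circuits with AND gates of fan-in two, OR gates of any fan-in and negations at
the inputs, whose inputs are the bits of two lists of `N` distinct vectors of dimension `d`. Such a
circuit accepts if and only if it has a proof tree all of whose leaves are true literals; the formal
degree in an input bit is the largest number of leaves with this bit, that is, the number of times
this bit is read. Nondeterministic, in particular deterministic, branching programs are such
circuits (the logarithm of the size is the memory, and a bit which is read at most `k` times on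
every path has degree at most `k`), and so are programs with a stack; a proof tree of a circuit may
even read any part of the input again and again in its branches.

The circuits have to recognise the instances without an orthogonal pair. (The instances with an
orthogonal pair are recognised by a disjunction of `N ^ 2` terms, each of which reads `2 d` bits
once.) Checking all pairs is a circuit of polynomial size and formal degree `N` in each bit. If the
total formal degree is at most `k` times the length `2 N d` of the input then the size is
`2 ^ Ω (N)`, already for `d = 2 log N + 3`. So algorithms of this kind with a memory of `o (N)` bits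
need superlinear reading time, and with a memory of `O (log N)` bits they need `Ω (N d log N)` reads.
This holds even if the condition on the degrees is only required for one coordinate of the vectors
of the first list and another one of the vectors of the second list: if these `2 N` degrees sum up
to at most `k N` then the size is `2 ^ Ω (N)`, and this remains true for circuits with one-sided
randomness, which find out only with probability `2 ^ (- N / D)` that there is no orthogonal pair.

Proof. The proof trees are cut into few pieces in which only few of the bits are read; a random
placement of a matching on the indices makes many pairs monochromatic. The matching is coded in the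
other coordinates: only partners can be orthogonal, and they are if and only if their two free bits
are zero.
-/

set_option autoImplicit false

namespace Pool.Agent.Results.MP_0f984e_lc.FormalDegree

open Pool.Agent.W896.RK Pool.Agent.W896.FD Pool.Agent.W896.FD.OV

/-- The bit `(false, i, l)` is the coordinate `l` of the vector `i` of the first list, the bit
`(true, i, l)` that of the second list. Let `d ≥ 2 ⌈log₂ N⌉ + 3`.

1. Let `l1 ≠ l2` be coordinates and `U r` (`r` in a finite nonempty set) circuits none of which
accepts an instance (two lists of `N` distinct vectors) with an orthogonal pair, such that every
instance without an orthogonal pair is accepted by at least a `2 ^ (- ⌊N / 2 ^ (60 (k + 1))⌋)`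
fraction of them. If in each `U r` the formal degrees in the coordinates `l1` of the first list and
in the coordinates `l2` of the second list sum up to at most `k N`, then some `U r` has `g` gates
with `N ≤ 2 ^ (60 (k + 1)) (⌊log₂ g⌋ + 1)`.

2. If a circuit accepts exactly the instances without an orthogonal pair (among all instances), and
its formal degrees in all bits sum up to at most `k (2 N d)`, then it has `g` gates with
`N ≤ 2 ^ (60 (4 k + 1)) (⌊log₂ g⌋ + 1)`. -/
theorem result (k N d : ℕ) (hd : 2 * Nat.clog 2 N + 3 ≤ d) :
    (∀ (l1 l2 : Fin d), l1 ≠ l2 →
      ∀ (R : Type) [Fintype R] [Nonempty R] (U : R → Circ (Bool × Fin N × Fin d)),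
      (∀ r x, Valid x → (U r).Val x (U r).out → ¬ Yes x) →
      (∀ x, Valid x → ¬ Yes x → Nat.card R ≤ 2 ^ (N / 2 ^ (60 * (k + 1))) *
        Nat.card {r // (U r).Val x (U r).out}) →
      (∀ r, ∃ f : (U r).G → Bool × Fin N × Fin d → ℕ, IsDeg (U r) id f ∧
        ∑ i, (f (U r).out (false, i, l1) + f (U r).out (true, i, l2)) ≤ k * N) →
      ∃ r, N ≤ 2 ^ (60 * (k + 1)) * (Nat.log 2 (Fintype.card (U r).G) + 1)) ∧
    ∀ U : Circ (Bool × Fin N × Fin d), (∀ x, Valid x → (U.Val x U.out ↔ ¬ Yes x)) →
      (∃ f : U.G → Bool × Fin N × Fin d → ℕ, IsDeg U id f ∧
        ∑ v, f U.out v ≤ k * (2 * N * d)) →
      N ≤ 2 ^ (60 * (4 * k + 1)) * (Nat.log 2 (Fintype.card U.G) + 1) :=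
  ⟨fun l1 l2 h12 _ _ _ U hU hc hdeg => ov_two k N d hd l1 l2 h12 _ U hU hc hdeg,
    fun U hU hdeg => ov_total k N d hd U hU hdeg⟩

end Pool.Agent.Results.MP_0f984e_lc.FormalDegree
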