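import Mathlib
import Pool.Agent.H592R3.OvDefs
import Pool.Agent.W964.Pram.Machine
import Pool.Agent.W964.Pram.RandMachine
import Pool.Agent.W964.Pram.OvFinal

/-!
Orthogonal vectors and ideal parallel random access machines (priority concurrent writing,
concurrent searching of lists of cells, arbitrary instruction set, unbounded words, unbounded
memory, different programs for different processors): `N ^ (2 - ε)` processors do not decide in
`o (log N / log log N)` steps whether there is an orthogonal pair, not even on average.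
-/

set_option autoImplicit false

open SmallDepth Finset Filter Pool.Agent.W964.Pram

namespace Pool.Agent.Results.MP_0f984e_lc.ParallelMachines

open Classical in
/-- 1. For every `ε > 0` and `K` there is `C > 0` such that for `N ≥ 4` vectors on each side,
`T ≥ 1` steps, `C T log log N ≤ w ≤ log N` and dimension `D ≥ 4 ^ w` there are two probability
distributions `ν₀`, `ν₁` on instances (two lists of `N` distinct vectors of dimension `D`) such
that `ν₁` is supported on instances with an orthogonal pair, an instance of `ν₀` has an orthogonal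
pair with probability at most `N ^ (-(1 - ε))`, and every parallel machine with at most
`N ^ (2 - ε)` processors and lists of length at most `N ^ K` has after `T` steps advantage at most
`2 ^ (-w / C)` in telling `ν₀` from `ν₁`, and decides whether there is an orthogonal pair on the
mixture `(ν₀ + ν₁) / 2` with probability at most `1 / 2 + 2 ^ (-w / C)`.

2. For `a < 2 b`, every `K` and every number of steps `T N = o (log N / log log N)` there is a
dimension `D N`, at most `(log N) ^ O(T N)`, such that randomized parallel machines with at most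
`N ^ (a / b)` times a polynomial in `D N` processors and lists of length at most `N ^ K` do not
decide in `T N` steps with error probability at most `1 / 3` whether there is an orthogonal pair,
for all large `N`, already for lists of distinct vectors. -/
theorem result :
    (∀ (ε : ℝ) (K : ℕ), 0 < ε → ∃ C : ℝ, 0 < C ∧
      ∀ N D T w : ℕ, 4 ≤ N → 1 ≤ T →
      C * (T * Real.log (Real.logb 2 N)) ≤ w → (w : ℝ) ≤ Real.logb 2 N → 4 ^ w ≤ D →
      ∃ ν₀ ν₁ : (OvBits N D → Bool) → ℝ,
        ((∀ x, 0 ≤ ν₀ x) ∧ ∑ x, ν₀ x = 1) ∧ ((∀ x, 0 ≤ ν₁ x) ∧ ∑ x, ν₁ x = 1) ∧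
        (∀ x, ν₀ x ≠ 0 → OvDistinct x) ∧ (∀ x, ν₁ x ≠ 0 → OvDistinct x ∧ OvYes x) ∧
        (∑ x, ν₀ x * (if OvYes x then 1 else 0)) ≤ (N : ℝ) ^ (-(1 - ε)) ∧
        ∀ (P : ℕ) (M : Machine (OvBits N D) P), (P : ℝ) ≤ (N : ℝ) ^ (2 - ε) →
          M.Lists (N ^ K) →
          |(∑ x, ν₀ x * (if M.answer T x = true then 1 else 0)) -
            ∑ x, ν₁ x * (if M.answer T x = true then 1 else 0)| ≤ (2 : ℝ) ^ (-((w : ℝ) / C)) ∧
          ∑ x, (ν₀ x + ν₁ x) / 2 * (if (M.answer T x = true ↔ OvYes x) then 1 else 0) ≤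
            1 / 2 + (2 : ℝ) ^ (-((w : ℝ) / C))) ∧
    (∀ a b K : ℕ, a < 2 * b → ∀ T : ℕ → ℕ, (∀ N, 1 ≤ T N) →
      (fun N : ℕ => (T N : ℝ) * Real.log (Real.logb 2 N)) =o[atTop]
        (fun N : ℕ => Real.logb 2 N) →
      ∃ D : ℕ → ℕ, (∃ C : ℝ, ∀ N, 16 ≤ N → (D N : ℝ) ≤ (Real.logb 2 N) ^ (C * T N)) ∧
        ∀ c e : ℕ, ∀ᶠ N : ℕ in atTop, ∀ (P : ℕ) (R : RandMachine (OvBits N (D N)) P),
          (P : ℝ) ≤ (N : ℝ) ^ ((a : ℝ) / b) * (c * ((D N : ℝ) + 1) ^ e) → R.Lists (N ^ K) →
          ∃ x, OvDistinct x ∧ R.success (T N) x (OvYes x) < 2 / 3) := by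
  refine ⟨fun ε K hε => ?_, fun a b K hab T hT hTo => ov_q1 a b K hab T hT hTo⟩
  obtain ⟨C, hC, H⟩ := ov_average ε hε K
  refine ⟨C, hC, ?_⟩
  intro N D T w hN hT hw hwL hD
  obtain ⟨ν₀, ν₁, h0, h1, h2, h3, h4, h5⟩ := H N D T w hN hT hw hwL hD
  exact ⟨ν₀, ν₁, h0, h1, h2, h3, h4, h5⟩

end Pool.Agent.Results.MP_0f984e_lc.ParallelMachines
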